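import Pool.Agent.Lib.helper32.Sier

set_option autoImplicit false

namespace Pool.Agent.Results.MP_ed4d4f_gt.SierProd

open Filter Set MeasureTheory Pool.Agent.Lib.helper32.Tau

/-- A Sierpinski set of reals. -/
def Sierpinski (S : Set ℝ) : Prop :=
  ¬ S.Countable ∧ ∀ N : Set ℝ, volume N = 0 → (S ∩ N).Countable

/-- The Hurewicz property. -/
def Hurewicz (Y : Type) [TopologicalSpace Y] : Prop := ∀ 𝓤 : ℕ → Set (Set Y),
  (∀ n, (∀ U ∈ 𝓤 n, IsOpen U) ∧ ⋃₀ 𝓤 n = univ) → ∃ 𝓕 : ℕ → Set (Set Y),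
    (∀ n, (𝓕 n).Finite ∧ 𝓕 n ⊆ 𝓤 n) ∧ ∀ y, ∀ᶠ n in atTop, y ∈ ⋃₀ 𝓕 n

theorem vol : volume cantorSet = 0 := by
  have h1 := isCompact_cantorSet.measure_ne_top (μ := volume)
  have h2 : cantorSet ⊆ (3 * ·) ⁻¹' cantorSet ∪ (3 * ·) ⁻¹' ((· + -2) ⁻¹' cantorSet) := by
    intro x hx
    rw [cantorSet_eq_union_halves] at hx
    rcases hx with ⟨y, hy, rfl⟩ | ⟨y, hy, rfl⟩
    · exact Or.inl (by rwa [mem_preimage, show 3 * (y / 3) = y by ring])
    · exact Or.inr (by rwa [mem_preimage, mem_preimage, show 3 * ((2 + y) / 3) + -2 = y by ring])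
  have h3 := (measure_mono (μ := volume) h2).trans (measure_union_le _ _)
  rw [Real.volume_preimage_mul_left three_ne_zero, Real.volume_preimage_mul_left three_ne_zero,
    measure_preimage_add_right] at h3
  have h4 := ENNReal.mul_ne_top (ENNReal.ofReal_ne_top (r := |(3 : ℝ)⁻¹|)) h1
  have h5 := ENNReal.toReal_mono (ENNReal.add_ne_top.2 ⟨h4, h4⟩) h3
  rw [ENNReal.toReal_add h4 h4, ENNReal.toReal_mul, ENNReal.toReal_ofReal (abs_nonneg _),
    abs_of_pos (by norm_num)] at h5
  exact ((ENNReal.toReal_eq_zero_iff _).1 (le_antisymm (by linarith)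
    ENNReal.toReal_nonneg)).resolve_right h1

theorem hur {Y : Set ℝ} (h0 : Y.Nonempty) (h : ∀ N : Set ℝ, volume N = 0 → (N ∩ Y).Countable) :
    Hurewicz Y := by
  intro 𝓤 hU
  have s1 : SG Y := sg_sier (ν := (volume.toFinite).restrict (toMeasurable volume.toFinite Y))
    (fun B hB => by
      rw [Measure.restrict_apply' (measurableSet_toMeasurable _ _),
        toFinite_apply_eq_zero_iff] at hB
      refine (h _ hB).mono fun x hx => ?_
      exact ⟨⟨hx.1, subset_toMeasurable _ _ hx.2⟩, hx.2⟩)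
    fun B b1 b2 => by
      rw [Measure.restrict_apply b1, inter_comm,
        Measure.measure_toMeasurable_inter b1 (measure_ne_top _ _)]
      exact measure_mono_null (fun x hx => (Set.disjoint_left.1 b2 hx.2 hx.1).elim) measure_empty
  obtain ⟨x0, hx0⟩ := h0
  have d1 : ∀ n, ∃ V : ℕ → Set Y, (∀ i, V i ∈ 𝓤 n) ∧ ∀ y, ∃ i, y ∈ V i := fun n => by
    obtain ⟨T, t1, t2, t3⟩ := TopologicalSpace.isOpen_sUnion_countable (𝓤 n) (hU n).1
    rw [(hU n).2] at t3
    obtain ⟨U, t4, -⟩ := (t3 ▸ mem_univ _ : (⟨x0, hx0⟩ : Y) ∈ ⋃₀ T)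
    obtain ⟨V, rfl⟩ := t1.exists_eq_range ⟨U, t4⟩
    exact ⟨V, fun i => t2 ⟨i, rfl⟩, fun y =>
      let ⟨_, ⟨i, rfl⟩, e⟩ := (t3 ▸ mem_univ y : y ∈ ⋃₀ range V); ⟨i, e⟩⟩
  choose V v1 v2 using d1
  choose W w1 w2 using fun n i => isOpen_induced_iff.1 ((hU n).1 _ (v1 n i))
  obtain ⟨k, hk⟩ := s1 (fun n k => ⋃ i ∈ Iic k, W n i) (fun n k => isOpen_biUnion fun i _ => w1 n i)
    fun n x hx => by
      obtain ⟨i, hi⟩ := v2 n ⟨x, hx⟩
      rw [← w2] at hi
      exact (eventually_ge_atTop i).mono fun k hk => mem_biUnion hk hi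
  refine ⟨fun n => V n '' Iic (k n), fun n => ⟨(finite_Iic _).image _, ?_⟩, fun y =>
    (hk _ y.2).mono fun n hn => let ⟨i, c1, c2⟩ := mem_iUnion₂.1 hn
      ⟨_, ⟨i, c1, rfl⟩, by rw [← w2]; exact c2⟩⟩
  rintro _ ⟨i, -, rfl⟩
  exact v1 n i

theorem result (hCH : Cardinal.continuum.{0} = Cardinal.aleph 1) (S : Set ℝ) (hS : Sierpinski S) :
    ∃ Y : Set ℝ, Hurewicz Y ∧ ¬ Hurewicz (S × Y) := by
  classical
  borelize GZ
  let μ : Measure GZ := Measure.addHaar
  have : NullSingletonClass μ := ⟨fun x => by_contra fun c => (measure_ne_top μ univ)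
    (infinite_univ.meas_eq_top ⟨_, c, fun y _ => ((Measure.addHaar_singleton μ x).trans
      (Measure.addHaar_singleton μ y).symm).le⟩)⟩
  let κ : (ℕ → Bool) → ℝ := fun b => (cantorSetHomeomorphNatToBool.symm b).1
  have k1 : Continuous κ := continuous_subtype_val.comp cantorSetHomeomorphNatToBool.symm.continuous
  have k2 : Function.Injective κ :=
    Subtype.val_injective.comp cantorSetHomeomorphNatToBool.symm.injective
  let Q : Set ℝ := κ '' {b | {i | b i = true}.Finite}
  have q1 : Q.Countable := (Set.Countable.setOf_finite.preimage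
    (f := fun b : ℕ → Bool => {i | b i = true}) fun a b e => funext fun i =>
      Bool.eq_iff_iff.2 (Set.ext_iff.1 e i)).image κ
  have st : ∀ (N : Set ℝ) (f : ℕ → ℕ), MeasurableSet N → volume N = 0 → ∃ s ∈ S, ∃ b : ℕ → Bool,
      (∃ᶠ n in atTop, ∀ i, n ≤ i → i < f n → b i = false) ∧ s + κ b ∉ N ∧
        ∀ q ∈ Q, s + κ b - q ∉ S := fun N f n1 n2 => by
    let β : ℕ → ℕ := fun k => k.rec 0 fun _ n => f (n + 1) + n + 1
    have b1 : StrictMono β :=
      strictMono_nat_of_lt_succ fun k => Nat.lt_succ_of_le (Nat.le_add_left _ _)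
    let ρ : GZ → ℕ → Bool := fun z => Function.extend β (fun k => decide (z k = 0)) fun _ => false
    have r1 : Continuous ρ := continuous_pi fun i => by
      by_cases c : ∃ k, β k = i
      · obtain ⟨k, rfl⟩ := c
        simp only [ρ, b1.injective.extend_apply]
        exact (continuous_of_discreteTopology (f := fun a : ZMod 2 => decide (a = 0))).comp
          (continuous_apply k)
      · simp only [ρ, Function.extend_apply' _ _ _ c]
        exact continuous_const
    have r2 : Function.Injective ρ := fun z w e => funext fun k => by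
      have c := congrFun e (β k)
      simp only [ρ, b1.injective.extend_apply] at c
      revert c
      generalize z k = a
      generalize w k = b
      revert a b
      decide
    have a1 : ∀ᵐ s ∂(volume : Measure ℝ), ∀ᵐ z ∂μ, s + κ (ρ z) ∉ N :=
      (Measure.ae_ae_comm (p := fun s z => s + κ (ρ z) ∉ N) (n1.compl.preimage
        (measurable_fst.add ((k1.comp r1).measurable.comp measurable_snd)))).2
          (.of_forall fun z => compl_mem_ae_iff.2 ((measure_preimage_add_right _ _ N).trans n2))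
    obtain ⟨s, s1, s2⟩ : ∃ s ∈ S, ∀ᵐ z ∂μ, s + κ (ρ z) ∉ N := by
      by_contra c
      exact hS.1 ((hS.2 _ (ae_iff.1 a1)).mono
        (subset_inter Subset.rfl fun s hs e => c ⟨s, hs, e⟩))
    have a2 : (⋃ q ∈ Q, {z | s + κ (ρ z) - q ∈ S}).Countable := q1.biUnion fun q _ => by
      refine ((hS.2 _ ((measure_preimage_add_right _ (q - s) _).trans vol)).preimage
        (f := fun z => s + κ (ρ z) - q) fun z w e => r2 (k2 ?_)).mono fun z hz => ?_
      · have e' : s + κ (ρ z) - q = s + κ (ρ w) - q := e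
        linarith
      · refine ⟨hz, ?_⟩
        show s + κ (ρ z) - q + (q - s) ∈ cantorSet
        rw [show s + κ (ρ z) - q + (q - s) = κ (ρ z) by ring]
        exact (cantorSetHomeomorphNatToBool.symm _).2
    obtain ⟨z, z1, z2⟩ := (s2.and (compl_mem_ae_iff.2 (a2.measure_zero μ))).exists
    refine ⟨s, s1, ρ z, frequently_atTop.2 fun k => ⟨β k + 1, (b1.id_le k).trans (Nat.le_succ _),
      fun i c1 c2 => Function.extend_apply' _ _ _ fun ⟨l, hl⟩ => ?_⟩, z1,
        fun q hq c => z2 (mem_biUnion hq c)⟩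
    have c3 : k < l := b1.lt_iff_lt.1 (hl ▸ c1)
    have c4 : f (β k + 1) + β k + 1 ≤ β l := b1.monotone (Nat.succ_le_of_lt c3)
    omega
  obtain ⟨T, ⟨d⟩⟩ : ∃ T : Type, Nonempty (T ≃
    ({B : Set ℝ // MeasurableSet B ∧ volume B = 0} × (ℕ → ℕ))) := ⟨_, ⟨.refl _⟩⟩
  have hI : Cardinal.mk T ≤ Cardinal.aleph 1 := by
    have c1 : Cardinal.mk {B : Set ℝ // MeasurableSet B ∧ volume B = 0} ≤ Cardinal.continuum := by
      refine (Cardinal.mk_subtype_mono fun B hB => ?_).trans
        (MeasurableSpace.cardinal_measurableSet_le_continuum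
          (s := MeasurableSpace.countableGeneratingSet ℝ)
          ((Cardinal.le_aleph0_iff_set_countable.2
            MeasurableSpace.countable_countableGeneratingSet).trans Cardinal.aleph0_le_continuum))
      rw [MeasurableSpace.generateFrom_countableGeneratingSet]
      exact hB.1
    rw [← hCH, Cardinal.mk_congr d, Cardinal.mk_prod, Cardinal.lift_id, Cardinal.lift_id]
    exact (mul_le_mul' c1 (by simp)).trans_eq Cardinal.continuum_mul_self
  obtain ⟨lo, _, ho⟩ := Cardinal.exists_ord_eq_type_lt T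
  have h0 : ∀ j : T, (Iio j).Countable := fun j =>
    (Cardinal.countable_iff_lt_aleph_one _).2 ((Cardinal.mk_Iio_lt j ho).trans_le hI)
  have h1 : ∀ j : T, (Iic j).Countable := fun j => Iio_insert (a := j) ▸ (h0 j).insert j
  choose s s1 b s2 s3 s4 using fun j => st (⋃ i ∈ Iic j, (d i).1.1) (d j).2
    (.biUnion (h1 j) fun i _ => (d i).1.2.1)
      ((measure_biUnion_null_iff (h1 j)).2 fun i _ => (d i).1.2.2)
  refine ⟨range fun j => s j + κ (b j), hur ⟨_, d.symm (⟨∅, .empty, measure_empty⟩, id), rfl⟩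
    fun N hN => ((h0 (d.symm (⟨toMeasurable volume N, measurableSet_toMeasurable _ _,
      (measure_toMeasurable _).trans hN⟩, id))).image fun j => s j + κ (b j)).mono ?_, fun h => ?_⟩
  · rintro _ ⟨c, j, rfl⟩
    exact ⟨j, not_le.1 fun e => s3 j (mem_biUnion e (by
      simpa using subset_toMeasurable volume N c)), rfl⟩
  let O : ℕ → ℕ → Set (S × range fun j => s j + κ (b j)) := fun n m =>
    {p | p.2.1 - p.1.1 ∉ κ '' {b | ∀ i, n ≤ i → i < m → b i = false}}
  obtain ⟨𝓕, b1, b2⟩ := h (fun n => range (O n)) fun n => ⟨by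
      rintro _ ⟨m, rfl⟩
      refine (IsClosed.isCompact ?_).image k1 |>.isClosed.isOpen_compl.preimage (by fun_prop)
      simp only [setOf_forall]
      exact isClosed_iInter fun i => isClosed_iInter fun _ => isClosed_iInter fun _ =>
        isClosed_eq (continuous_apply i) continuous_const,
    eq_univ_of_forall fun ⟨x, _, j, rfl⟩ => by
      by_contra c
      have c1 : ∀ m, s j + κ (b j) - x.1 ∈ κ '' {b | ∀ i, n ≤ i → i < m → b i = false} :=
        fun m => not_not.1 fun e => c ⟨_, ⟨m, rfl⟩, e⟩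
      obtain ⟨a, -, c2⟩ := c1 0
      refine s4 j _ ⟨a, (finite_lt_nat n).subset fun i hi =>
        show i < n from not_le.1 fun e : n ≤ i => ?_, rfl⟩
        (by rw [c2]; simp)
      obtain ⟨a', c3, c4⟩ := c1 (i + 1)
      have c5 := c3 i e i.lt_succ_self
      rw [k2 (c4.trans c2.symm), (hi : a i = true)] at c5
      exact absurd c5 (by simp)⟩
  choose! ν hν using fun n W (hW : W ∈ 𝓕 n) => (b1 n).2 hW
  choose f hf using fun n => ((b1 n).1.image (ν n)).bddAbove
  let j := d.symm (⟨∅, .empty, measure_empty⟩, f)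
  obtain ⟨n, c1, W, c2, c3⟩ := ((s2 j).and_eventually (b2 (⟨s j, s1 j⟩, ⟨_, j, rfl⟩))).exists
  rw [← hν n W c2] at c3
  refine c3 ⟨b j, fun i c4 c5 => c1 i c4 (c5.trans_le ?_), by simp⟩
  simpa [j] using hf n ⟨W, c2, rfl⟩

end Pool.Agent.Results.MP_ed4d4f_gt.SierProd
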